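import Mathlib
import Pool.Agent.TH669.AD.Fin
import Pool.Agent.N375.AV.D

set_option autoImplicit false

/-! Few orders are bad: with a loss `m ^ ε` all but `x exp (- c √(log x))` of the orders `m ≤ x` are good in the sense of
`Pool.Agent.TH669.AD.GoodDeg`. -/

open Finset

namespace Pool.Agent.N897.FO

open Pool.Agent.TH669.AD (GoodDeg big count1 count2)
open Pool.Agent.N733.TG (sp rp sp_mul_rp few_large')
open Pool.Agent.N375.AV (Thin)

lemma rp_eq {y n : ℕ} (hn : n ≠ 0) (h : ∀ p : ℕ, p.Prime → y < p → ¬ p ^ 2 ∣ n) : rp y n = ∏ p ∈ big y n, p := by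
  unfold rp big
  rw [prod_filter]
  apply prod_congr rfl
  intro p hp
  by_cases hpy : p ≤ y
  · rw [if_pos hpy, if_neg (not_lt.2 hpy)]
  · rw [if_neg hpy, if_pos (not_le.1 hpy)]
    have hpp := Nat.prime_of_mem_primeFactors hp
    have h1 : 1 ≤ n.factorization p := hpp.factorization_pos_of_dvd hn (Nat.dvd_of_mem_primeFactors hp)
    have h2 : n.factorization p < 2 := by
      by_contra h3
      exact h p hpp (not_le.1 hpy) ((hpp.pow_dvd_iff_le_factorization hn).2 (not_lt.1 h3))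
    have h3 : n.factorization p = 1 := by omega
    rw [h3, pow_one]

/-- the loss in the orders of the groups -/
noncomputable def S (m : ℕ) : ℕ := ⌊Real.exp (√(Real.log m) / 8)⌋₊

lemma S_pos (m : ℕ) : 1 ≤ S m := by
  apply Nat.le_floor
  rw [Nat.cast_one]
  exact Real.one_le_exp (by positivity)

lemma S_mono {m n : ℕ} (hm : 1 ≤ m) (h : m ≤ n) : S m ≤ S n := by
  apply Nat.floor_le_floor
  apply Real.exp_le_exp.2
  have h1 : Real.log m ≤ Real.log n := Real.log_le_log (by exact_mod_cast hm) (by exact_mod_cast h)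
  have := Real.sqrt_le_sqrt h1
  linarith

open Classical in
/-- few orders are bad for the parameters of `N` -/
lemma few {ε : ℝ} (hε : 0 < ε) : ∃ K : ℝ, 0 ≤ K ∧ ∀ N : ℕ, 1 ≤ N → ∃ y : ℕ, S N ≤ y ∧
    (((Ioc 0 N).filter (fun n => ¬ GoodDeg y (S N) ((N : ℝ) ^ ε) n)).card : ℝ) ≤
      K * N * Real.exp (-(min (ε / 16) (1 / 2) * √(Real.log N))) := by
  obtain ⟨C, hC, hlarge⟩ := few_large'
  obtain ⟨κ, hκ⟩ : ∃ κ : ℝ, κ = min (ε / 16) (1 / 2) := ⟨_, rfl⟩
  have hκ0 : 0 < κ := by rw [hκ]; exact lt_min (by linarith) (by norm_num)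
  have hκ1 : κ ≤ 1 / 2 := by rw [hκ]; exact min_le_right _ _
  have hκ2 : κ ≤ ε / 16 := by rw [hκ]; exact min_le_left _ _
  rw [← hκ]
  obtain ⟨K3, hK3⟩ : ∃ K3 : ℝ, K3 = 2 * C * (16 / ε) * Real.exp (2 + 2 * C) := ⟨_, rfl⟩
  have hK30 : 0 ≤ K3 := by rw [hK3]; positivity
  refine ⟨97 + K3, by linarith, fun N hN => ?_⟩
  have hN1 : (1 : ℝ) ≤ N := by exact_mod_cast hN
  have hN0 : (0 : ℝ) < N := by linarith
  obtain ⟨r, hr⟩ : ∃ r : ℝ, r = √(Real.log N) := ⟨_, rfl⟩
  have hL0 : 0 ≤ Real.log N := Real.log_nonneg hN1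
  have hr0 : 0 ≤ r := by rw [hr]; positivity
  have hrr : r * r = Real.log N := by rw [hr]; exact Real.mul_self_sqrt hL0
  obtain ⟨y, hy⟩ : ∃ y : ℕ, y = ⌈Real.exp r⌉₊ := ⟨_, rfl⟩
  have hy1 : Real.exp r ≤ y := by rw [hy]; exact Nat.le_ceil _
  have hy2 : (y : ℝ) ≤ 2 * Real.exp r := by
    have h1 := (Nat.ceil_lt_add_one (Real.exp_pos r).le).le
    have h2 : 1 ≤ Real.exp r := Real.one_le_exp hr0
    rw [hy]
    linarith
  have hy0 : (0 : ℝ) < y := lt_of_lt_of_le (Real.exp_pos _) hy1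
  have hyn : 0 < y := by exact_mod_cast hy0
  have hSle : (S N : ℝ) ≤ Real.exp (r / 8) := by
    rw [hr]
    exact Nat.floor_le (Real.exp_pos _).le
  have hSy : S N ≤ y := by
    have h1 : (S N : ℝ) ≤ y := hSle.trans (le_trans (Real.exp_le_exp.2 (by linarith)) hy1)
    exact_mod_cast h1
  refine ⟨y, hSy, ?_⟩
  rw [← hr]
  rcases lt_or_ge r 1 with hlt | hge
  · -- small `N`
    have h1 : (((Ioc 0 N).filter (fun n => ¬ GoodDeg y (S N) ((N : ℝ) ^ ε) n)).card : ℝ) ≤ N := by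
      have := card_filter_le (Ioc 0 N) (fun n => ¬ GoodDeg y (S N) ((N : ℝ) ^ ε) n)
      rw [Nat.card_Ioc, Nat.sub_zero] at this
      exact_mod_cast this
    have h2 : Real.exp (-1) ≤ Real.exp (-(κ * r)) := by
      apply Real.exp_le_exp.2
      nlinarith
    have h3 : (1 : ℝ) / 3 ≤ Real.exp (-1) := by
      rw [Real.exp_neg, one_div]
      apply inv_anti₀ (Real.exp_pos _)
      have := Real.exp_one_lt_d9
      linarith
    calc _ ≤ (N : ℝ) := h1
      _ = 3 * N * (1 / 3) := by ring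
      _ ≤ (97 + K3) * N * Real.exp (-(κ * r)) := by
          apply mul_le_mul _ (h3.trans h2) (by norm_num) (by positivity)
          apply mul_le_mul_of_nonneg_right (by linarith) hN0.le
  -- large `N`
  have hly1 : r ≤ Real.log y := by
    rw [Real.le_log_iff_exp_le hy0]
    exact hy1
  have hly2 : Real.log y ≤ 2 * r := by
    have h1 := Real.log_le_log hy0 hy2
    rw [Real.log_mul (by norm_num) (Real.exp_pos _).ne', Real.log_exp] at h1
    have := Real.log_two_lt_d9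
    linarith
  have hly0 : 0 < Real.log y := by linarith
  obtain ⟨B1, hB1⟩ : ∃ B1 : Finset ℕ, B1 = (Ioc 0 N).filter (fun n => ∃ p : ℕ, p.Prime ∧ y < p ∧ p ^ 2 ∣ n) := ⟨_, rfl⟩
  obtain ⟨B2, hB2⟩ : ∃ B2 : Finset ℕ, B2 = (Ioc 0 N).filter (fun n => ∃ p d₁ d₂ : ℕ, p.Prime ∧ y < p ∧ p * d₁ ∣ n ∧
      1 ≤ d₂ ∧ d₂ ≤ S N ∧ d₁ * d₂ ≡ 1 [MOD p] ∧ d₁ * d₂ ≠ 1) := ⟨_, rfl⟩
  obtain ⟨B3, hB3⟩ : ∃ B3 : Finset ℕ, B3 = (Icc 1 N).filter (fun n => (N : ℝ) ^ ε < (sp y n : ℝ)) := ⟨_, rfl⟩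
  have hsub : (Ioc 0 N).filter (fun n => ¬ GoodDeg y (S N) ((N : ℝ) ^ ε) n) ⊆ B1 ∪ B2 ∪ B3 := by
    intro n hn
    rw [mem_filter] at hn
    obtain ⟨hn, h3⟩ := hn
    rw [mem_union, mem_union]
    by_cases hsq : ∀ p : ℕ, p.Prime → y < p → ¬ p ^ 2 ∣ n
    · by_cases hc : ∀ p : ℕ, p.Prime → y < p → ∀ d₁ d₂, p * d₁ ∣ n → 1 ≤ d₂ → d₂ ≤ S N →
          d₁ * d₂ ≡ 1 [MOD p] → d₁ * d₂ = 1
      · right
        rw [hB3, mem_filter, mem_Icc]
        rw [mem_Ioc] at hn
        refine ⟨⟨by omega, hn.2⟩, ?_⟩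
        by_contra hle
        apply h3
        refine ⟨hsq, hc, ?_⟩
        have h4 : n ≠ 0 := by omega
        have h5 := sp_mul_rp y n h4
        rw [rp_eq h4 hsq] at h5
        calc (n : ℝ) = ((sp y n * ∏ p ∈ big y n, p : ℕ) : ℝ) := by rw [h5]
          _ = (sp y n : ℝ) * ((∏ p ∈ big y n, p : ℕ) : ℝ) := by rw [Nat.cast_mul]
          _ ≤ (N : ℝ) ^ ε * ((∏ p ∈ big y n, p : ℕ) : ℝ) :=
              mul_le_mul_of_nonneg_right (not_lt.1 hle) (Nat.cast_nonneg _)
      · left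
        right
        push Not at hc
        obtain ⟨p, hp, hyp, d₁, d₂, a1, a2, a3, a4, a5⟩ := hc
        rw [hB2, mem_filter]
        exact ⟨hn, p, d₁, d₂, hp, hyp, a1, a2, a3, a4, a5⟩
    · left
      left
      push Not at hsq
      obtain ⟨p, hp, hyp, a1⟩ := hsq
      rw [hB1, mem_filter]
      exact ⟨hn, p, hp, hyp, a1⟩
  have hcard : (((Ioc 0 N).filter (fun n => ¬ GoodDeg y (S N) ((N : ℝ) ^ ε) n)).card : ℝ) ≤
      (B1.card : ℝ) + B2.card + B3.card := by
    have h1 : ((Ioc 0 N).filter (fun n => ¬ GoodDeg y (S N) ((N : ℝ) ^ ε) n)).card ≤ B1.card + B2.card + B3.card := by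
      calc _ ≤ (B1 ∪ B2 ∪ B3).card := card_le_card hsub
        _ ≤ (B1 ∪ B2).card + B3.card := card_union_le _ _
        _ ≤ _ := Nat.add_le_add_right (card_union_le _ _) _
    exact_mod_cast h1
  -- the three parts
  have hexp0 : 0 < Real.exp (-(κ * r)) := Real.exp_pos _
  have hinv : (1 : ℝ) / y ≤ Real.exp (-r) := by
    rw [Real.exp_neg, one_div]
    exact inv_anti₀ (Real.exp_pos _) hy1
  have p1 : (B1.card : ℝ) ≤ 1 * N * Real.exp (-(κ * r)) := by
    have h1 : (B1.card : ℝ) ≤ N / y := by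
      rw [hB1]
      convert count1 N y hyn
    calc (B1.card : ℝ) ≤ N / y := h1
      _ = N * (1 / y) := by ring
      _ ≤ N * Real.exp (-r) := mul_le_mul_of_nonneg_left hinv hN0.le
      _ ≤ N * Real.exp (-(κ * r)) := by
          apply mul_le_mul_of_nonneg_left _ hN0.le
          apply Real.exp_le_exp.2
          nlinarith
      _ = _ := by ring
  have p2 : (B2.card : ℝ) ≤ 96 * N * Real.exp (-(κ * r)) := by
    have h1 : (B2.card : ℝ) ≤ N * (S N : ℝ) ^ 2 * (1 + Real.log (N * S N)) / y := by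
      rw [hB2]
      convert count2 N y (S N) hyn (S_pos N)
    have hS0 : (0 : ℝ) < S N := by exact_mod_cast S_pos N
    have hS1 : (1 : ℝ) ≤ S N := by exact_mod_cast S_pos N
    have h2 : Real.log (N * S N) ≤ r * r + r / 8 := by
      rw [Real.log_mul hN0.ne' hS0.ne', hrr]
      have h3 := Real.log_le_log hS0 hSle
      rw [Real.log_exp] at h3
      linarith
    have h3 : (S N : ℝ) ^ 2 ≤ Real.exp (r / 4) := by
      calc (S N : ℝ) ^ 2 ≤ Real.exp (r / 8) ^ 2 := pow_le_pow_left₀ hS0.le hSle 2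
        _ = Real.exp (r / 4) := by
            rw [← Real.exp_nat_mul]
            congr 1
            push_cast
            ring
    have h4 : 1 + (r * r + r / 8) ≤ 96 * Real.exp (r / 4) := by
      have h5 := Real.quadratic_le_exp_of_nonneg (show 0 ≤ r / 4 by linarith)
      nlinarith
    have h6 : 0 ≤ 1 + Real.log (N * S N) := by
      have : 0 ≤ Real.log (N * S N) := Real.log_nonneg (one_le_mul_of_one_le_of_one_le hN1 hS1)
      linarith
    calc (B2.card : ℝ) ≤ N * (S N : ℝ) ^ 2 * (1 + Real.log (N * S N)) / y := h1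
      _ = N * ((S N : ℝ) ^ 2 * (1 + Real.log (N * S N)) * (1 / y)) := by ring
      _ ≤ N * (Real.exp (r / 4) * (96 * Real.exp (r / 4)) * Real.exp (-r)) := by
          apply mul_le_mul_of_nonneg_left _ hN0.le
          apply mul_le_mul _ hinv (by positivity) (by positivity)
          exact mul_le_mul h3 (by linarith) h6 (Real.exp_pos _).le
      _ = 96 * N * Real.exp (-(1 / 2 * r)) := by
          have h7 : Real.exp (-(1 / 2 * r)) = Real.exp (r / 4) * Real.exp (r / 4) * Real.exp (-r) := by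
            rw [← Real.exp_add, ← Real.exp_add]
            congr 1
            ring
          rw [h7]
          ring
      _ ≤ 96 * N * Real.exp (-(κ * r)) := by
          apply mul_le_mul_of_nonneg_left _ (by positivity)
          apply Real.exp_le_exp.2
          nlinarith
  have p3 : (B3.card : ℝ) ≤ K3 * N * Real.exp (-(κ * r)) := by
    have hyge : 2 ≤ y := by
      have h1 : (2 : ℝ) ≤ y := by
        have := Real.add_one_le_exp r
        linarith
      exact_mod_cast h1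
    obtain ⟨β, hβ⟩ : ∃ β : ℝ, β = 1 / (4 * Real.log y) := ⟨_, rfl⟩
    have hβ0 : 0 < β := by rw [hβ]; positivity
    have hβ4 : β ≤ 1 / 4 := by
      rw [hβ]
      apply one_div_le_one_div_of_le (by norm_num)
      linarith
    have h1 := hlarge β y N ((N : ℝ) ^ ε) hβ0.le hβ4 hyge (by positivity)
    have h1' : (B3.card : ℝ) ≤ N * ((N : ℝ) ^ ε) ^ (-β) * (C * Real.log y * Real.exp (4 * β * (y : ℝ) ^ β *
        (Real.log y + C))) := by
      rw [hB3]
      convert h1
    have h2 : ((N : ℝ) ^ ε) ^ (-β) ≤ Real.exp (-(ε * r / 8)) := by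
      rw [← Real.rpow_mul hN0.le, Real.rpow_def_of_pos hN0, ← hrr]
      apply Real.exp_le_exp.2
      have h3 : r * r * (ε * -β) = -(ε * (r * r) / (4 * Real.log y)) := by
        rw [hβ]
        ring
      rw [h3]
      apply neg_le_neg
      rw [div_le_div_iff₀ (by norm_num) (by positivity)]
      have : ε * r * (4 * Real.log y) ≤ ε * r * (4 * (2 * r)) := by
        apply mul_le_mul_of_nonneg_left _ (by positivity)
        linarith
      linarith
    have h3 : (y : ℝ) ^ β ≤ 2 := by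
      rw [Real.rpow_def_of_pos hy0, hβ]
      have h4 : Real.log y * (1 / (4 * Real.log y)) = 1 / 4 := by field_simp
      rw [h4]
      have h5 : Real.exp (1 / 4) ≤ Real.exp (Real.log 2) := by
        apply Real.exp_le_exp.2
        have := Real.log_two_gt_d9
        linarith
      rwa [Real.exp_log (by norm_num)] at h5
    have h4 : 4 * β * (y : ℝ) ^ β * (Real.log y + C) ≤ 2 + 2 * C := by
      have h5 : 4 * β * (Real.log y + C) ≤ 1 + C := by
        rw [hβ]
        have h6 : 4 * (1 / (4 * Real.log y)) * (Real.log y + C) = 1 + C / Real.log y := by field_simp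
        rw [h6]
        have : C / Real.log y ≤ C := div_le_self hC.le (by linarith)
        linarith
      calc 4 * β * (y : ℝ) ^ β * (Real.log y + C) = (4 * β * (Real.log y + C)) * (y : ℝ) ^ β := by ring
        _ ≤ (1 + C) * 2 := mul_le_mul h5 h3 (by positivity) (by linarith)
        _ = _ := by ring
    have h5 : r * Real.exp (-(ε * r / 8)) ≤ 16 / ε * Real.exp (-(κ * r)) := by
      have h6 : ε * r / 16 ≤ Real.exp (ε * r / 16) := by
        have := Real.add_one_le_exp (ε * r / 16)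
        linarith
      have h7 : r ≤ 16 / ε * Real.exp (ε * r / 16) := by
        rw [div_mul_eq_mul_div, le_div_iff₀ hε]
        linarith
      calc r * Real.exp (-(ε * r / 8)) ≤ 16 / ε * Real.exp (ε * r / 16) * Real.exp (-(ε * r / 8)) :=
            mul_le_mul_of_nonneg_right h7 (Real.exp_pos _).le
        _ = 16 / ε * Real.exp (-(ε / 16 * r)) := by
            rw [mul_assoc, ← Real.exp_add]
            congr 2
            ring
        _ ≤ 16 / ε * Real.exp (-(κ * r)) := by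
            apply mul_le_mul_of_nonneg_left _ (by positivity)
            apply Real.exp_le_exp.2
            nlinarith
    calc (B3.card : ℝ) ≤ N * ((N : ℝ) ^ ε) ^ (-β) * (C * Real.log y * Real.exp (4 * β * (y : ℝ) ^ β *
          (Real.log y + C))) := h1'
      _ ≤ N * Real.exp (-(ε * r / 8)) * (C * (2 * r) * Real.exp (2 + 2 * C)) := by
          apply mul_le_mul
          · exact mul_le_mul_of_nonneg_left h2 hN0.le
          · apply mul_le_mul
            · exact mul_le_mul_of_nonneg_left hly2 hC.le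
            · exact Real.exp_le_exp.2 h4
            · exact (Real.exp_pos _).le
            · positivity
          · positivity
          · positivity
      _ = 2 * C * Real.exp (2 + 2 * C) * N * (r * Real.exp (-(ε * r / 8))) := by ring
      _ ≤ 2 * C * Real.exp (2 + 2 * C) * N * (16 / ε * Real.exp (-(κ * r))) :=
          mul_le_mul_of_nonneg_left h5 (by positivity)
      _ = K3 * N * Real.exp (-(κ * r)) := by
          rw [hK3]
          ring
  calc _ ≤ (B1.card : ℝ) + B2.card + B3.card := hcard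
    _ ≤ 1 * N * Real.exp (-(κ * r)) + 96 * N * Real.exp (-(κ * r)) + K3 * N * Real.exp (-(κ * r)) := by linarith
    _ = _ := by ring

/-- the orders without a cyclic subgroup of large order acting freely, for some group -/
def Bad (ε : ℝ) : Set ℕ :=
  {m | ¬ ∃ y : ℕ, S m ≤ y ∧ (2 : ℝ) ≤ (m : ℝ) ^ ε ∧ 0 < m ∧ GoodDeg y (S m) ((m : ℝ) ^ ε) m}

/-- **The bad orders form a thin set.** -/
theorem thin_bad {ε : ℝ} (hε : 0 < ε) : ∃ c K : ℝ, 0 < c ∧ 0 ≤ K ∧ Thin (1 / 2) c K (Bad ε) := by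
  classical
  obtain ⟨K₁, hK₁, hfew⟩ := few (half_pos hε)
  obtain ⟨M₀, hM₀⟩ := exists_nat_ge ((2 : ℝ) ^ (1 / ε))
  obtain ⟨κ, hκ⟩ : ∃ κ : ℝ, κ = min (ε / 2 / 16) (1 / 2) := ⟨_, rfl⟩
  have hκ0 : 0 < κ := by rw [hκ]; exact lt_min (by linarith) (by norm_num)
  have hκ1 : κ ≤ 1 / 2 := by rw [hκ]; exact min_le_right _ _
  rw [← hκ] at hfew
  refine ⟨κ, 2 * (M₀ + 2) + 2 + K₁, hκ0, by positivity, fun N hN => ?_⟩
  have hN1 : (1 : ℝ) ≤ N := by exact_mod_cast hN
  have hN0 : (0 : ℝ) < N := by linarith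
  have hL0 : 0 ≤ Real.log N := Real.log_nonneg hN1
  rw [← Real.sqrt_eq_rpow]
  obtain ⟨y, hSy, hc⟩ := hfew N hN
  obtain ⟨r, hr⟩ : ∃ r : ℝ, r = √(Real.log N) := ⟨_, rfl⟩
  have hr0 : 0 ≤ r := by rw [hr]; positivity
  have hrr : r * r = Real.log N := by rw [hr]; exact Real.mul_self_sqrt hL0
  rw [← hr] at hc ⊢
  have hNe : (N : ℝ) = Real.exp (r * r) := by rw [hrr, Real.exp_log hN0]
  have hsub : (range (N + 1)).filter (fun v => v ∈ Bad ε) ⊆
      range (M₀ + 1) ∪ (range (Nat.sqrt N + 1)) ∪ (Ioc 0 N).filter (fun n => ¬ GoodDeg y (S N) ((N : ℝ) ^ (ε / 2)) n) := by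
    intro m hm
    rw [mem_filter, mem_range] at hm
    obtain ⟨hmN, hm⟩ := hm
    rw [mem_union, mem_union, mem_range, mem_range, mem_filter, mem_Ioc]
    by_contra hcon
    push Not at hcon
    obtain ⟨⟨h1, h2⟩, h3⟩ := hcon
    have hm0 : 0 < m := by omega
    have hgood := h3 ⟨hm0, by omega⟩
    have hm1 : (1 : ℝ) ≤ m := by exact_mod_cast hm0
    apply hm
    refine ⟨y, (S_mono hm0 (by omega)).trans hSy, ?_, hm0, ?_⟩
    · have h4 : (2 : ℝ) ^ (1 / ε) ≤ m := hM₀.trans (by exact_mod_cast (by omega : M₀ ≤ m))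
      calc (2 : ℝ) = ((2 : ℝ) ^ (1 / ε)) ^ ε := by
            rw [← Real.rpow_mul (by norm_num), one_div, inv_mul_cancel₀ hε.ne', Real.rpow_one]
        _ ≤ (m : ℝ) ^ ε := Real.rpow_le_rpow (by positivity) h4 hε.le
    · refine ⟨hgood.sqf, fun p hp hyp d₁ d₂ hd h5 h6 h7 => hgood.cong p hp hyp d₁ d₂ hd h5
        (h6.trans (S_mono hm0 (by omega))) h7, ?_⟩
      refine hgood.smooth.trans ?_
      apply mul_le_mul_of_nonneg_right _ (Nat.cast_nonneg _)
      have h8 : (N : ℝ) ≤ (m : ℝ) ^ (2 : ℝ) := by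
        have h9 : N < (Nat.sqrt N + 1) * (Nat.sqrt N + 1) := Nat.lt_succ_sqrt N
        have h10 : (Nat.sqrt N + 1) * (Nat.sqrt N + 1) ≤ m * m := Nat.mul_le_mul (by omega) (by omega)
        rw [Real.rpow_two, pow_two]
        exact_mod_cast (h9.le.trans h10)
      calc (N : ℝ) ^ (ε / 2) ≤ ((m : ℝ) ^ (2 : ℝ)) ^ (ε / 2) := Real.rpow_le_rpow hN0.le h8 (by positivity)
        _ = (m : ℝ) ^ ε := by
            rw [← Real.rpow_mul (by linarith)]
            congr 1
            ring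
  have hcard : (((range (N + 1)).filter (fun v => v ∈ Bad ε)).card : ℝ) ≤
      (M₀ + 1) + (√(N : ℝ) + 1) + K₁ * N * Real.exp (-(κ * r)) := by
    have h1 : ((range (N + 1)).filter (fun v => v ∈ Bad ε)).card ≤ (M₀ + 1) + (Nat.sqrt N + 1) +
        ((Ioc 0 N).filter (fun n => ¬ GoodDeg y (S N) ((N : ℝ) ^ (ε / 2)) n)).card := by
      refine (card_le_card hsub).trans ((card_union_le _ _).trans (Nat.add_le_add_right ?_ _))
      refine (card_union_le _ _).trans ?_
      rw [card_range, card_range]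
    have h2 : (((range (N + 1)).filter (fun v => v ∈ Bad ε)).card : ℝ) ≤ (M₀ + 1) + ((Nat.sqrt N : ℕ) + 1) +
        (((Ioc 0 N).filter (fun n => ¬ GoodDeg y (S N) ((N : ℝ) ^ (ε / 2)) n)).card : ℝ) := by exact_mod_cast h1
    have h3 : ((Nat.sqrt N : ℕ) : ℝ) ≤ √(N : ℝ) := Real.nat_sqrt_le_real_sqrt
    linarith
  -- the small terms
  have e1 : (1 : ℝ) / 2 ≤ N * Real.exp (-(κ * r)) := by
    rw [hNe, ← Real.exp_add]
    have h1 : (1 : ℝ) / 2 ≤ Real.exp (-(1 / 16)) := by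
      have := Real.add_one_le_exp (-(1 / 16) : ℝ)
      linarith
    refine h1.trans (Real.exp_le_exp.2 ?_)
    nlinarith [sq_nonneg (r - 1 / 4)]
  have e2 : √(N : ℝ) ≤ 2 * (N * Real.exp (-(κ * r))) := by
    have h1 : √(N : ℝ) = Real.exp (r * r / 2) := by
      rw [hNe, Real.sqrt_eq_rpow, ← Real.exp_mul]
      congr 1
      ring
    have h2 : Real.exp (-(1 / 8)) * √(N : ℝ) ≤ N * Real.exp (-(κ * r)) := by
      rw [h1, ← Real.exp_add]
      conv_rhs => rw [hNe, ← Real.exp_add]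
      apply Real.exp_le_exp.2
      nlinarith [sq_nonneg (r - 1 / 2)]
    have h3 : (1 : ℝ) / 2 ≤ Real.exp (-(1 / 8)) := by
      have := Real.add_one_le_exp (-(1 / 8) : ℝ)
      linarith
    have h4 : 1 / 2 * √(N : ℝ) ≤ Real.exp (-(1 / 8)) * √(N : ℝ) := mul_le_mul_of_nonneg_right h3 (Real.sqrt_nonneg _)
    linarith
  have e3 : ((M₀ : ℝ) + 2) ≤ 2 * (M₀ + 2) * (N * Real.exp (-(κ * r))) := by
    have h1 : (0 : ℝ) ≤ 2 * (M₀ + 2) := by positivity
    have := mul_le_mul_of_nonneg_left e1 h1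
    linarith
  calc (((range (N + 1)).filter (fun v => v ∈ Bad ε)).card : ℝ)
      ≤ (M₀ + 1) + (√(N : ℝ) + 1) + K₁ * N * Real.exp (-(κ * r)) := hcard
    _ ≤ 2 * (M₀ + 2) * (N * Real.exp (-(κ * r))) + 2 * (N * Real.exp (-(κ * r))) + K₁ * N * Real.exp (-(κ * r)) := by
        linarith
    _ = _ := by ring

end Pool.Agent.N897.FO
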