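import Mathlib
import Pool.Agent.N897.FO.Count

set_option autoImplicit false

/-! Few orders are bad, and few values of additive functions. -/

open Finset

namespace Pool.Agent.N897.FO

open Pool.Agent.N375.AV (Thin PD comp comp_thin)
open Pool.Agent.TH669.AD (GoodDeg)

lemma count_of_thin {β c K : ℝ} {E : Set ℕ} (hE : Thin β c K E) {P : ℕ → Prop} (hP : ∀ m, P m → m ∈ E) (x : ℕ)
    (hx : 1 ≤ x) : ({m : ℕ | 1 ≤ m ∧ m ≤ x ∧ P m}.ncard : ℝ) ≤ K * x * Real.exp (-(c * Real.log x ^ β)) := by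
  classical
  have h1 : {m : ℕ | 1 ≤ m ∧ m ≤ x ∧ P m} ⊆ (((range (x + 1)).filter (fun v => v ∈ E) : Finset ℕ) : Set ℕ) := by
    rintro m ⟨hm1, hm2, hm3⟩
    rw [mem_coe, mem_filter, mem_range]
    exact ⟨by omega, hP m hm3⟩
  have h2 := Set.ncard_le_ncard h1 (finite_toSet _)
  rw [Set.ncard_coe_finset] at h2
  refine le_trans (show _ ≤ ((((range (x + 1)).filter (fun v => v ∈ E)).card : ℕ) : ℝ) by exact_mod_cast h2)
    (le_trans (le_of_eq ?_) (hE x hx))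
  congr!

/-- finitely many small numbers can be added -/
lemma thin_union_lt {c K : ℝ} (hc : 0 < c) {E : Set ℕ} (hE : Thin (1 / 2) c K E) (M : ℕ) :
    ∃ c' K' : ℝ, 0 < c' ∧ 0 ≤ K' ∧ Thin (1 / 2) c' K' (E ∪ {m | m < M}) := by
  classical
  refine ⟨min c 1, |K| + 2 * M, lt_min hc one_pos, by positivity, fun x hx => ?_⟩
  have hx1 : (1 : ℝ) ≤ x := by exact_mod_cast hx
  have hx0 : (0 : ℝ) < x := by linarith
  obtain ⟨r, hr⟩ : ∃ r : ℝ, r = √(Real.log x) := ⟨_, rfl⟩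
  have hr0 : 0 ≤ r := by rw [hr]; positivity
  have hrr : r * r = Real.log x := by rw [hr]; exact Real.mul_self_sqrt (Real.log_nonneg hx1)
  have h1 := hE x hx
  rw [← Real.sqrt_eq_rpow, ← hr] at h1 ⊢
  have hsub : (range (x + 1)).filter (fun v => v ∈ E ∪ {m | m < M}) ⊆ (range (x + 1)).filter (fun v => v ∈ E) ∪ range M := by
    intro v hv
    rw [mem_filter] at hv
    rw [mem_union, mem_filter]
    rcases hv.2 with h2 | h2
    · exact Or.inl ⟨hv.1, h2⟩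
    · exact Or.inr (mem_range.2 h2)
  have h3 : (((range (x + 1)).filter (fun v => v ∈ E ∪ {m | m < M})).card : ℝ) ≤
      (((range (x + 1)).filter (fun v => v ∈ E)).card : ℝ) + M := by
    have h2 := (card_le_card hsub).trans (card_union_le _ _)
    rw [card_range] at h2
    exact_mod_cast h2
  have h4 : (1 : ℝ) / 2 ≤ x * Real.exp (-(min c 1 * r)) := by
    have h5 : (x : ℝ) = Real.exp (r * r) := by rw [hrr, Real.exp_log hx0]
    rw [h5, ← Real.exp_add]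
    have h6 : (1 : ℝ) / 2 ≤ Real.exp (-(1 / 4)) := by
      have := Real.add_one_le_exp (-(1 / 4) : ℝ)
      linarith
    refine h6.trans (Real.exp_le_exp.2 ?_)
    have h7 : min c 1 * r ≤ 1 * r := mul_le_mul_of_nonneg_right (min_le_right _ _) hr0
    nlinarith [sq_nonneg (r - 1 / 2)]
  have h5 : K * x * Real.exp (-(c * r)) ≤ |K| * x * Real.exp (-(min c 1 * r)) := by
    have h6 : K * x ≤ |K| * x := mul_le_mul_of_nonneg_right (le_abs_self K) hx0.le
    have h7 : Real.exp (-(c * r)) ≤ Real.exp (-(min c 1 * r)) := by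
      apply Real.exp_le_exp.2
      have : min c 1 * r ≤ c * r := mul_le_mul_of_nonneg_right (min_le_left _ _) hr0
      linarith
    exact mul_le_mul h6 h7 (Real.exp_pos _).le (by positivity)
  have h6 : (M : ℝ) ≤ 2 * M * (x * Real.exp (-(min c 1 * r))) := by
    have : (0 : ℝ) ≤ 2 * M := by positivity
    have := mul_le_mul_of_nonneg_left h4 this
    linarith
  calc _ = (((range (x + 1)).filter (fun v => v ∈ E ∪ {m | m < M})).card : ℝ) := by congr!
    _ ≤ _ := h3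
    _ = _ + (M : ℝ) := by congr!
    _ ≤ |K| * x * Real.exp (-(min c 1 * r)) + 2 * M * (x * Real.exp (-(min c 1 * r))) := by linarith
    _ = _ := by ring

/-- **All orders.** -/
theorem orders {ε : ℝ} (hε : 0 < ε) {P : ℕ → Prop} (M : ℕ)
    (hP : ∀ m y : ℕ, M ≤ m → 0 < m → S m ≤ y → (2 : ℝ) ≤ (m : ℝ) ^ ε → GoodDeg y (S m) ((m : ℝ) ^ ε) m → P m) :
    ∃ c K : ℝ, 0 < c ∧ ∀ x : ℕ, 1 ≤ x →
      ({m : ℕ | 1 ≤ m ∧ m ≤ x ∧ ¬ P m}.ncard : ℝ) ≤ K * x * Real.exp (-(c * √(Real.log x))) := by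
  obtain ⟨c₀, K₀, hc₀, hK₀, h₀⟩ := thin_bad hε
  obtain ⟨c, K, hc, hK, h⟩ := thin_union_lt hc₀ h₀ M
  refine ⟨c, K, hc, fun x hx => ?_⟩
  rw [Real.sqrt_eq_rpow]
  refine count_of_thin h (fun m hm => ?_) x hx
  rcases lt_or_ge m M with h5 | h5
  · exact Or.inr h5
  · left
    rintro ⟨y, h1, h2, h3, h4⟩
    exact hm (hP m y h5 h3 h1 h2 h4)

/-- **Values of compositions of additive functions.** -/
theorem values {ε : ℝ} (hε : 0 < ε) {P : ℕ → Prop} (M : ℕ)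
    (hP : ∀ m y : ℕ, M ≤ m → 0 < m → S m ≤ y → (2 : ℝ) ≤ (m : ℝ) ^ ε → GoodDeg y (S m) ((m : ℝ) ^ ε) m → P m)
    (fs : List (ℕ → ℕ)) (hfs : ∀ f ∈ fs, PD f) :
    ∃ c K : ℝ, 0 < c ∧ ∀ x : ℕ, 1 ≤ x →
      ({m : ℕ | 1 ≤ m ∧ m ≤ x ∧ ¬ P (comp fs m)}.ncard : ℝ) ≤
        K * x * Real.exp (-(c * Real.log x ^ (1 / ((fs.length : ℝ) + 2)))) := by
  obtain ⟨c₀, K₀, hc₀, hK₀, h₀⟩ := thin_bad hε
  obtain ⟨c, K, hc, hK, h⟩ := thin_union_lt hc₀ h₀ M
  obtain ⟨c', K', hc', hK', h'⟩ := comp_thin fs hfs (β := 1 / 2) (by norm_num) (by norm_num) hc hK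
  have h1 := h' _ h
  have h2 : (1 : ℝ) / 2 / (1 + fs.length * (1 / 2)) = 1 / ((fs.length : ℝ) + 2) := by
    have : (0 : ℝ) ≤ fs.length := Nat.cast_nonneg _
    field_simp
    ring
  rw [h2] at h1
  refine ⟨c', K', hc', fun x hx => ?_⟩
  refine count_of_thin h1 (fun m hm => ?_) x hx
  rcases lt_or_ge (comp fs m) M with h5 | h5
  · exact Or.inr h5
  · left
    rintro ⟨y, h1, h2, h3, h4⟩
    exact hm (hP _ y h5 h3 h1 h2 h4)

/-- large powers -/
lemma large_pow {ε : ℝ} (hε : 0 < ε) (Q : ℝ) : ∃ M : ℕ, 2 ≤ M ∧ ∀ m : ℕ, M ≤ m → Q < (m : ℝ) ^ ε := by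
  have h := ((tendsto_rpow_atTop hε).comp tendsto_natCast_atTop_atTop).eventually (Filter.eventually_gt_atTop Q)
  obtain ⟨M, hM⟩ := Filter.eventually_atTop.1 h
  exact ⟨max M 2, le_max_right _ _, fun m hm => hM m ((le_max_left _ _).trans hm)⟩

/-- `4 ^ size R` is at most quadratic -/
lemma four_size (R : ℕ) : (4 : ℝ) ^ Nat.size R ≤ 4 * (R : ℝ) ^ 2 + 1 := by
  rcases Nat.eq_zero_or_pos R with h | h
  · subst h
    simp
  · have h1 : 2 ^ Nat.size R ≤ 2 * R := by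
      have h2 : Nat.size R - 1 < Nat.size R := by
        have : 0 < Nat.size R := Nat.size_pos.2 h
        omega
      have h3 := Nat.lt_size.1 h2
      have h4 : 0 < Nat.size R := Nat.size_pos.2 h
      calc 2 ^ Nat.size R = 2 * 2 ^ (Nat.size R - 1) := by
            rw [← pow_succ']
            congr 1
            omega
        _ ≤ 2 * R := Nat.mul_le_mul_left _ h3
    have h5 : ((2 : ℝ) ^ Nat.size R) ≤ 2 * R := by exact_mod_cast h1
    calc (4 : ℝ) ^ Nat.size R = ((2 : ℝ) ^ Nat.size R) ^ 2 := by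
          rw [← pow_mul, mul_comm, pow_mul]
          norm_num
      _ ≤ (2 * (R : ℝ)) ^ 2 := pow_le_pow_left₀ (by positivity) h5 2
      _ = 4 * (R : ℝ) ^ 2 := by ring
      _ ≤ _ := by linarith

end Pool.Agent.N897.FO
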