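import Mathlib
import Pool.Agent.N897.FO.Main
import Pool.Agent.TH669.AD.Free

set_option autoImplicit false

/-! The number of conjugacy classes and a cyclic subgroup of small index. -/

namespace Pool.Agent.N897.FO

open Pool.Agent.TH669.AD (GoodDeg exists_free)

/-- an abelian subgroup meets many classes -/
theorem classes_of_cyclic (G : Type) [Group G] [Finite G] (c : G) :
    Nat.card (Subgroup.zpowers c) ^ 2 ≤ Nat.card (ConjClasses G) * Nat.card G := by
  classical
  haveI : Fintype G := Fintype.ofFinite G
  haveI : Fintype (ConjClasses G) := Fintype.ofFinite _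
  haveI : Fintype (Subgroup.zpowers c) := Fintype.ofFinite _
  -- the class of an element of the subgroup
  have hclass : ∀ x : G, x ∈ Subgroup.zpowers c →
      (MulAction.orbit (ConjAct G) x).ncard * Nat.card (Subgroup.zpowers c) ≤ Nat.card G := by
    intro x hx
    have h1 : (MulAction.orbit (ConjAct G) x).ncard * Nat.card (MulAction.stabilizer (ConjAct G) x) = Nat.card G := by
      have h2 := Nat.card_congr (MulAction.orbitProdStabilizerEquivGroup (ConjAct G) x)
      rw [Nat.card_prod, Nat.card_coe_set_eq] at h2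
      rw [h2]
      exact Nat.card_congr (ConjAct.ofConjAct (G := G)).toEquiv
    have h3 : Nat.card (Subgroup.zpowers c) ≤ Nat.card (MulAction.stabilizer (ConjAct G) x) := by
      apply Nat.card_le_card_of_injective
        (fun z : Subgroup.zpowers c => (⟨ConjAct.toConjAct (z : G), by
          rw [MulAction.mem_stabilizer_iff, ConjAct.toConjAct_smul]
          obtain ⟨i, hi⟩ := Subgroup.mem_zpowers_iff.1 z.2
          obtain ⟨j, hj⟩ := Subgroup.mem_zpowers_iff.1 hx
          rw [← hi, ← hj, ← zpow_add, add_comm, zpow_add, mul_inv_cancel_right]⟩ :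
          MulAction.stabilizer (ConjAct G) x))
      intro z z' h
      have h4 := congrArg (fun s : MulAction.stabilizer (ConjAct G) x => ConjAct.ofConjAct (s : ConjAct G)) h
      exact Subtype.ext (by simpa using h4)
    calc _ ≤ (MulAction.orbit (ConjAct G) x).ncard * Nat.card (MulAction.stabilizer (ConjAct G) x) :=
          Nat.mul_le_mul_left _ h3
      _ = _ := h1
  -- fibres of the map to the classes
  have hfib : ∀ k : ConjClasses G,
      (Finset.univ.filter (fun z : Subgroup.zpowers c => ConjClasses.mk (z : G) = k)).card *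
        Nat.card (Subgroup.zpowers c) ≤ Nat.card G := by
    intro k
    rcases (Finset.univ.filter (fun z : Subgroup.zpowers c => ConjClasses.mk (z : G) = k)).eq_empty_or_nonempty with he | ⟨z₀, hz₀⟩
    · rw [he]
      simp
    · rw [Finset.mem_filter] at hz₀
      refine le_trans (Nat.mul_le_mul_right _ ?_) (hclass z₀ z₀.2)
      rw [← Set.ncard_coe_finset]
      have h5 := Set.ncard_image_of_injective
        ((Finset.univ.filter (fun z : Subgroup.zpowers c => ConjClasses.mk (z : G) = k) : Finset _) : Set (Subgroup.zpowers c))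
        (f := fun z : Subgroup.zpowers c => (z : G)) Subtype.val_injective
      rw [← h5]
      apply Set.ncard_le_ncard _ (Set.toFinite _)
      rintro _ ⟨z, hz, rfl⟩
      rw [Finset.mem_coe, Finset.mem_filter] at hz
      have h6 : ConjClasses.mk (z₀ : G) = ConjClasses.mk (z : G) := by rw [hz₀.2, hz.2]
      rw [ConjClasses.mk_eq_mk_iff_isConj, isConj_iff] at h6
      obtain ⟨g, hg⟩ := h6
      exact ⟨ConjAct.toConjAct g, by
        show ConjAct.toConjAct g • (z₀ : G) = z
        rw [ConjAct.toConjAct_smul]
        exact hg⟩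
  have hsum : (Finset.univ : Finset (Subgroup.zpowers c)).card =
      ∑ k : ConjClasses G, (Finset.univ.filter (fun z : Subgroup.zpowers c => ConjClasses.mk (z : G) = k)).card :=
    Finset.card_eq_sum_card_fiberwise (fun _ _ => Finset.mem_univ _)
  calc Nat.card (Subgroup.zpowers c) ^ 2 = (Finset.univ : Finset (Subgroup.zpowers c)).card * Nat.card (Subgroup.zpowers c) := by
        rw [Finset.card_univ, ← Nat.card_eq_fintype_card]
        ring
    _ = ∑ k : ConjClasses G, (Finset.univ.filter (fun z : Subgroup.zpowers c => ConjClasses.mk (z : G) = k)).card *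
          Nat.card (Subgroup.zpowers c) := by rw [hsum, Finset.sum_mul]
    _ ≤ ∑ _k : ConjClasses G, Nat.card G := Finset.sum_le_sum (fun k _ => hfib k)
    _ = Nat.card (ConjClasses G) * Nat.card G := by
        rw [Finset.sum_const, Finset.card_univ, Nat.card_eq_fintype_card (α := ConjClasses G), smul_eq_mul]

/-- good orders -/
theorem classes_of_good {ε : ℝ} {n y : ℕ} (h0 : 0 < n) (h1 : S n ≤ y) (h3 : GoodDeg y (S n) ((n : ℝ) ^ ε) n)
    (G : Type) [Group G] [Finite G] (hG : Nat.card G = n) :
    (n : ℝ) ^ (1 - 2 * ε) ≤ (Nat.card (ConjClasses G) : ℝ) := by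
  have horb : ∀ v : G, (MulAction.orbit G v).ncard = n := by
    intro v
    have : MulAction.orbit G v = Set.univ := MulAction.orbit_eq_univ G v
    rw [this, Set.ncard_univ, hG]
  obtain ⟨c, -, hc⟩ := exists_free h1 h3 h0 G G horb (by
    rw [hG]
    exact Nat.le_mul_of_pos_left n (S_pos n))
  have hn0 : (0 : ℝ) < n := by exact_mod_cast h0
  have h4 := classes_of_cyclic G c
  rw [hG] at h4
  have h5 : ((Nat.card (Subgroup.zpowers c) : ℕ) : ℝ) ^ 2 ≤ (Nat.card (ConjClasses G) : ℝ) * n := by exact_mod_cast h4
  have h6 : (n : ℝ) ^ (1 - ε) ≤ (Nat.card (Subgroup.zpowers c) : ℝ) := by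
    have h7 : (n : ℝ) ^ (1 - ε) * (n : ℝ) ^ ε = n := by
      rw [← Real.rpow_add hn0, sub_add_cancel, Real.rpow_one]
    have h8 : 0 < (n : ℝ) ^ ε := by positivity
    nlinarith
  have h9 : (n : ℝ) ^ (1 - 2 * ε) * n ≤ (Nat.card (ConjClasses G) : ℝ) * n := by
    calc (n : ℝ) ^ (1 - 2 * ε) * n = ((n : ℝ) ^ (1 - ε)) ^ 2 := by
          rw [← Real.rpow_natCast, ← Real.rpow_mul hn0.le]
          conv_lhs => rw [← Real.rpow_one (n : ℝ), ← Real.rpow_mul hn0.le, ← Real.rpow_add hn0]
          congr 1
          push_cast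
          ring
      _ ≤ (Nat.card (Subgroup.zpowers c) : ℝ) ^ 2 := pow_le_pow_left₀ (by positivity) h6 2
      _ ≤ _ := h5
  exact le_of_mul_le_mul_right h9 hn0

end Pool.Agent.N897.FO
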